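import Pool.Agent.helper66.SL.SpecC

/-!
# Simple facts for the rows UZC, ZO3, STC, CIE, NAD
-/

set_option autoImplicit false

namespace Pool.Agent.helper66.SL

open Pool.Agent.helper52.FC

variable {E : Type}

theorem r16_le_ne {X Y : E → SignType} (h : Le X Y) {e : E} (he : X e ≠ 0) : X e = Y e :=
  (h e).resolve_left he

theorem r16_star_ext {p S S' : E → SignType} (hS : Le p S) (hS' : Le p S')
    (h : ∀ g, p g = 0 → S g = S' g) : S = S' := by
  funext g
  by_cases hg : p g = 0
  · exact h g hg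
  · rw [← r16_le_ne hS hg, r16_le_ne hS' hg]

theorem r16_le_fl {p S : E → SignType} (hS : Le p S) {e : E} (he : p e = 0) : Le p (fl S e) := by
  intro g
  by_cases hg : g = e
  · left
    rw [hg, he]
  · rw [fl_ne S hg]
    exact hS g

theorem r16_exists_star [Finite E] {L : Set (E → SignType)} (hL : IsOM L) (hs : IsSimple L)
    {p : E → SignType} (hp : p ∈ L) : ∃ T, IsTope L T ∧ Le p T := by
  obtain ⟨T0, hT0⟩ := exists_tope hL
  refine ⟨cmp p T0, tope_of (hL.comp p hp T0 hT0.1) fun e => ?_, le_cmp p T0⟩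
  by_cases h : p e = 0
  · rw [cmp_pos h]
    exact tope_supp hL hs hT0 e
  · rw [cmp_neg h]
    exact h

theorem r16_neg_fl (T : E → SignType) (e : E) : (fun g => -fl T e g) = fl (fun g => -T g) e := by
  funext g
  by_cases hg : g = e
  · rw [hg, fl_same, fl_same]
  · rw [fl_ne _ hg, fl_ne _ hg]

theorem r16_wall_neg {L : Set (E → SignType)} (hL : IsOM L) (hs : IsSimple L) {T : E → SignType}
    {e : E} (h : Wall L T e) : Wall L (fun g => -T g) e := by
  unfold Wall
  rw [← r16_neg_fl]
  exact tope_neg hL hs h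

theorem r16_neg_neg (T : E → SignType) : (fun g => -(fun g => -T g) g) = T := by
  funext g
  simp

theorem r16_cork_neg [Finite E] {L : Set (E → SignType)} (hL : IsOM L) (hs : IsSimple L)
    {p : E → SignType} {k : ℕ} (h : Cork L p k) : Cork L (fun g => -p g) k := by
  refine ⟨hL.neg p h.1, fun T hT hle => ?_⟩
  have h1 := h.2 (fun g => -T g) (tope_neg hL hs hT) (by
    intro g
    rcases hle g with h2 | h2
    · left
      have h3 : -p g = 0 := h2
      simpa using h3
    · right
      have h3 : -p g = T g := h2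
      show p g = -T g
      rw [← h3, neg_neg])
  rw [← h1]
  congr 1
  ext e
  constructor
  · rintro ⟨h2, h3⟩
    refine ⟨r16_wall_neg hL hs h2, ?_⟩
    have h4 : -p e = 0 := h3
    simpa using h4
  · rintro ⟨h2, h3⟩
    refine ⟨?_, ?_⟩
    · have h4 := r16_wall_neg hL hs h2
      rwa [r16_neg_neg] at h4
    · show -p e = 0
      rw [h3]
      rfl

theorem r16_vx_ne_zero [Finite E] {L : Set (E → SignType)} (h : R3 L) {p : E → SignType}
    (hp : Cork L p 2) : ∃ g, p g ≠ 0 := by
  by_contra hcon
  push Not at hcon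
  obtain ⟨T, hT⟩ := exists_tope h.good.om
  have h1 := hp.2 T hT fun g => Or.inl (hcon g)
  have h2 := h.rk.2 T hT fun g => Or.inl rfl
  have h3 : {e | Wall L T e ∧ p e = 0} = {e | Wall L T e ∧ (fun _ : E => (0 : SignType)) e = 0} := by
    ext e
    constructor
    · rintro ⟨h4, -⟩
      exact ⟨h4, rfl⟩
    · rintro ⟨h4, -⟩
      exact ⟨h4, hcon e⟩
  rw [h3, h2] at h1
  exact absurd h1 (by decide)

theorem r16_sne {a : SignType} (h : a ≠ 0) : -a ≠ a := by
  revert h
  cases a <;> decide

theorem r16_neg_ne [Finite E] {L : Set (E → SignType)} (h : R3 L) {p : E → SignType}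
    (hp : Cork L p 2) : (fun g => -p g) ≠ p := by
  obtain ⟨g, hg⟩ := r16_vx_ne_zero h hp
  intro h1
  exact r16_sne hg (congrFun h1 g)

end Pool.Agent.helper66.SL
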