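import Pool.Agent.helper16.SL.Bas

/-!
# Row sl:CIE
-/

set_option autoImplicit false

namespace Pool.Agent.helper66.SL

open Pool.Agent.helper52.FC

theorem CIE_proof (hSZZ : SZZ) (hPEX : PEX) (hPUN : PUN) : CIE := by
  classical
  intro E _ L hR e
  have := Fintype.ofFinite E
  have hom := hR.good.om
  have hsm := hR.good.simple
  have hfin : ∀ s : Set (E → SignType), s.Finite := fun s => Set.toFinite s
  -- the vertices on `e`
  let P : Finset (E → SignType) := (hfin {p | Cork L p 2 ∧ p e = 0}).toFinset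
  have hP : ∀ p, p ∈ P ↔ Cork L p 2 ∧ p e = 0 := fun p => by
    rw [Set.Finite.mem_toFinset]
    rfl
  let X : Finset E := Finset.univ.erase e
  have hX : ∀ x, x ∈ X ↔ x ≠ e := fun x => by
    rw [Finset.mem_erase]
    exact ⟨fun h => h.1, fun h => ⟨h, Finset.mem_univ _⟩⟩
  have hdc : ∑ x ∈ X, (P.filter fun p => p x = 0).card = ∑ p ∈ P, (X.filter fun x => p x = 0).card := by
    simp only [Finset.card_filter]
    exact Finset.sum_comm
  -- every `x` has two vertices
  have h1 : ∀ x ∈ X, (P.filter fun p => p x = 0).card = 2 := by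
    intro x hx
    rw [hX] at hx
    obtain ⟨p, hp, hpe, hpx⟩ := hPEX E L hR e x (Ne.symm hx)
    have h2 : (P.filter fun p => p x = 0) = {p, fun g => -p g} := by
      ext q
      rw [Finset.mem_filter, hP, Finset.mem_insert, Finset.mem_singleton]
      constructor
      · rintro ⟨⟨h3, h4⟩, h5⟩
        exact hPUN E L hR p q hp h3 e x (Ne.symm hx) hpe hpx h4 h5
      · rintro (rfl | rfl)
        · exact ⟨⟨hp, hpe⟩, hpx⟩
        · refine ⟨⟨r16_cork_neg hom hsm hp, ?_⟩, ?_⟩
          · show -p e = 0
            rw [hpe]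
            rfl
          · show -p x = 0
            rw [hpx]
            rfl
    rw [h2, Finset.card_pair]
    exact (r16_neg_ne hR hp).symm
  -- every vertex has one or two `x`
  have h2 : ∀ p ∈ P, ∀ m, {g | p g = 0}.ncard = m + 1 → (X.filter fun x => p x = 0).card = m := by
    intro p hp m hm
    rw [hP] at hp
    have h3 : ({g | p g = 0} : Set E) = ↑((Finset.univ : Finset E).filter fun g => p g = 0) := by
      ext g
      simp
    rw [h3, Set.ncard_coe_finset] at hm
    have h4 : (X.filter fun x => p x = 0) =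
        ((Finset.univ : Finset E).filter fun g => p g = 0).erase e := by
      ext g
      rw [Finset.mem_filter, hX, Finset.mem_erase, Finset.mem_filter]
      constructor
      · rintro ⟨a, b⟩
        exact ⟨a, Finset.mem_univ _, b⟩
      · rintro ⟨a, -, b⟩
        exact ⟨a, b⟩
    rw [h4, Finset.card_erase_of_mem, hm]
    · rfl
    · rw [Finset.mem_filter]
      exact ⟨Finset.mem_univ _, hp.2⟩
  have hA : Av L e = (P.filter fun p => {g | p g = 0}.ncard = 2).card := by
    unfold Av
    rw [← Set.ncard_coe_finset]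
    congr 1
    ext p
    simp only [Finset.coe_filter, hP]
    constructor
    · rintro ⟨⟨h3, h4⟩, h5⟩
      exact ⟨⟨h3, h5⟩, h4⟩
    · rintro ⟨⟨h3, h5⟩, h4⟩
      exact ⟨⟨h3, h4⟩, h5⟩
  have hB : Bv L e = (P.filter fun p => ¬ {g | p g = 0}.ncard = 2).card := by
    unfold Bv
    rw [← Set.ncard_coe_finset]
    congr 1
    ext p
    simp only [Finset.coe_filter, hP]
    constructor
    · rintro ⟨⟨h3, h4⟩, h5⟩
      refine ⟨⟨h3, h5⟩, ?_⟩
      rw [h4]
      decide
    · rintro ⟨⟨h3, h5⟩, h4⟩
      refine ⟨⟨h3, ?_⟩, h5⟩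
      exact ((hSZZ E L hR.good hR.cl p h3).1).resolve_left h4
  rw [Finset.sum_congr rfl h1, Finset.sum_const, smul_eq_mul] at hdc
  have hcard : X.card = Nat.card E - 1 := by
    rw [Finset.card_erase_of_mem (Finset.mem_univ _), Finset.card_univ, Nat.card_eq_fintype_card]
  rw [hcard] at hdc
  rw [mul_comm, hdc, ← Finset.sum_filter_add_sum_filter_not P (fun p => {g | p g = 0}.ncard = 2), hA, hB]
  congr 1
  · rw [Finset.card_eq_sum_ones]
    refine Finset.sum_congr rfl fun p hp => ?_
    rw [Finset.mem_filter] at hp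
    exact h2 p hp.1 1 hp.2
  · rw [mul_comm, ← smul_eq_mul, ← Finset.sum_const]
    refine Finset.sum_congr rfl fun p hp => ?_
    rw [Finset.mem_filter] at hp
    refine h2 p hp.1 2 ?_
    exact ((hSZZ E L hR.good hR.cl p ((hP p).1 hp.1).1).1).resolve_left hp.2

end Pool.Agent.helper66.SL
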