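import Pool.Agent.helper16.SL.Bas

/-!
# Row sl:NAD
-/

set_option autoImplicit false

namespace Pool.Agent.helper66.SL

open Pool.Agent.helper52.FC

theorem NAD_two {E : Type} [Finite E] {p : E → SignType} (h : {x | p x = 0}.ncard = 2) {e g : E}
    (hne : e ≠ g) (he : p e = 0) (hg : p g = 0) : ∀ x, p x = 0 → x = e ∨ x = g := by
  intro x hx
  have hsub : ({e, g} : Set E) ⊆ {x | p x = 0} := by
    rintro y (rfl | rfl)
    · exact he
    · exact hg
  have heq : ({e, g} : Set E) = {x | p x = 0} := by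
    refine Set.eq_of_subset_of_ncard_le hsub ?_ (Set.toFinite _)
    rw [h, Set.ncard_pair hne]
  have h1 : x ∈ ({e, g} : Set E) := by
    rw [heq]
    exact hx
  exact h1

theorem NAD_key (hSZZ : SZZ) (hTRI : TRI) (hPUN : PUN) (E : Type) [Finite E]
    (L : Set (E → SignType)) (hR : R3 L) (T p q : E → SignType) (hT : IsTope L T)
    (hp : Vx L 2 p) (hq : Vx L 2 q) (hpT : Le p T) (hqT : Le q T) (e g h : E) (r : E → SignType)
    (heg : e ≠ g) (heh : e ≠ h) (hgh : g ≠ h) (he : Wall L T e)
    (hpe : p e = 0) (hpg : p g = 0) (hqe : q e = 0) (hqh : q h = 0)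
    (hr : Cork L r 2) (hrT : Le r T) (hre : r e ≠ 0) (hrg : r g = 0) (hrh : r h = 0) :
    Nat.card E ≤ 4 := by
  have hom := hR.good.om
  have hsm := hR.good.simple
  have hS : IsTope L (fl T e) := he
  have hpS : Le p (fl T e) := r16_le_fl hpT hpe
  have hqS : Le q (fl T e) := r16_le_fl hqT hqe
  have wg : Wall L (fl T e) g := (hSZZ E L hR.good hR.cl p hp.1).2 hp.2 _ hS hpS g hpg
  have wh : Wall L (fl T e) h := (hSZZ E L hR.good hR.cl q hq.1).2 hq.2 _ hS hqS h hqh
  have we : Wall L (fl T e) e := (hSZZ E L hR.good hR.cl p hp.1).2 hp.2 _ hS hpS e hpe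
  -- the vertex of `fl T e` opposite to `e`
  obtain ⟨r', hr', hr'S, hr'e, hr'g, hr'h⟩ : ∃ r', Cork L r' 2 ∧ Le r' (fl T e) ∧ r' e ≠ 0 ∧
      r' g = 0 ∧ r' h = 0 := by
    obtain ⟨i, j, k, p', q', r', hij, hik, hjk, hw, cp, cq, cr, lp, lq, lr, pi, pj, pk, qi, qj, qk,
      ri, rj, rk, -⟩ := hTRI E L hR (fl T e) hS
    have e1 := (hw e).1 we
    have e2 := (hw g).1 wg
    have e3 := (hw h).1 wh
    rcases e1 with rfl | rfl | rfl
    · refine ⟨p', cp, lp, pi, ?_, ?_⟩
      · rcases e2 with rfl | rfl | rfl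
        · exact absurd rfl heg
        · exact pj
        · exact pk
      · rcases e3 with rfl | rfl | rfl
        · exact absurd rfl heh
        · exact pj
        · exact pk
    · refine ⟨q', cq, lq, qj, ?_, ?_⟩
      · rcases e2 with rfl | rfl | rfl
        · exact qi
        · exact absurd rfl heg
        · exact qk
      · rcases e3 with rfl | rfl | rfl
        · exact qi
        · exact absurd rfl heh
        · exact qk
    · refine ⟨r', cr, lr, rk, ?_, ?_⟩
      · rcases e2 with rfl | rfl | rfl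
        · exact ri
        · exact rj
        · exact absurd rfl heg
      · rcases e3 with rfl | rfl | rfl
        · exact ri
        · exact rj
        · exact absurd rfl heh
  have hTe : T e ≠ 0 := tope_supp hom hsm hT e
  have e4 : r e = T e := r16_le_ne hrT hre
  have e5 : r' e = -T e := by
    rw [r16_le_ne hr'S hr'e, fl_same]
  have e6 : r' = fun x => -r x := by
    rcases hPUN E L hR r r' hr hr' g h hgh hrg hrh hr'g hr'h with h1 | h1
    · exfalso
      rw [h1, e4] at e5
      exact r16_sne hTe e5.symm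
    · exact h1
  have e7 : ∀ x, r x ≠ 0 → x = e := by
    intro x hx
    by_contra hxe
    have a1 : T x = r x := (r16_le_ne hrT hx).symm
    have a2 : r' x = -r x := congrFun e6 x
    have a3 : r' x ≠ 0 := by
      rw [a2]
      intro h0
      apply hx
      revert h0
      cases r x <;> decide
    have a4 : r' x = fl T e x := r16_le_ne hr'S a3
    rw [fl_ne T hxe, a2, a1] at a4
    exact r16_sne hx a4
  have e8 : (Set.univ : Set E) ⊆ {x | r x = 0} ∪ {e} := by
    intro x _
    by_cases hx : r x = 0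
    · exact Or.inl hx
    · exact Or.inr (e7 x hx)
  have e9 := Set.ncard_le_ncard e8 (Set.toFinite _)
  have e10 := Set.ncard_union_le {x | r x = 0} {e}
  rw [Set.ncard_univ] at e9
  rw [Set.ncard_singleton] at e10
  have e11 := (hSZZ E L hR.good hR.cl r hr).1
  omega

theorem NAD_proof (hSZZ : SZZ) (hTRI : TRI) (hPUN : PUN) : NAD := by
  intro E _ L hR T p q hT hp hq hpq hpT hqT
  obtain ⟨i, j, k, p', q', r', hij, hik, hjk, hw, cp, cq, cr, lp, lq, lr, pi, pj, pk, qi, qj, qk,
    ri, rj, rk, hall⟩ := hTRI E L hR T hT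
  have wi : Wall L T i := (hw i).2 (Or.inl rfl)
  have wj : Wall L T j := (hw j).2 (Or.inr (Or.inl rfl))
  have wk : Wall L T k := (hw k).2 (Or.inr (Or.inr rfl))
  rcases hall p hp.1 hpT with h1 | h1 | h1 <;> rcases hall q hq.1 hqT with h2 | h2 | h2
  · exact absurd (h1.trans h2.symm) hpq
  · subst h1 h2
    exact NAD_key hSZZ hTRI hPUN E L hR T p q hT hp hq hpT hqT k j i r' hjk.symm hik.symm hij.symm
      wk pk pj qk qi cr lr rk rj ri
  · subst h1 h2
    exact NAD_key hSZZ hTRI hPUN E L hR T p q hT hp hq hpT hqT j k i q' hjk hij.symm hik.symm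
      wj pj pk rj ri cq lq qj qk qi
  · subst h1 h2
    exact NAD_key hSZZ hTRI hPUN E L hR T p q hT hp hq hpT hqT k i j r' hik.symm hjk.symm hij
      wk qk qi pk pj cr lr rk ri rj
  · exact absurd (h1.trans h2.symm) hpq
  · subst h1 h2
    exact NAD_key hSZZ hTRI hPUN E L hR T p q hT hp hq hpT hqT i k j p' hik hij hjk.symm
      wi qi qk ri rj cp lp pi pk pj
  · subst h1 h2
    exact NAD_key hSZZ hTRI hPUN E L hR T p q hT hp hq hpT hqT j i k q' hij.symm hjk hik
      wj rj ri pj pk cq lq qj qi qk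
  · subst h1 h2
    exact NAD_key hSZZ hTRI hPUN E L hR T p q hT hp hq hpT hqT i j k p' hij hik hjk
      wi ri rj qi qk cp lp pi pj pk
  · exact absurd (h1.trans h2.symm) hpq

end Pool.Agent.helper66.SL
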