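import Pool.Agent.helper16.SL.Bas

/-!
# Row sl:STC
-/

set_option autoImplicit false

namespace Pool.Agent.helper66.SL

open Pool.Agent.helper52.FC

/-- Two signs which both differ from a third one (all not zero) agree. -/
theorem STC_third {a b t : SignType} (ha : a ≠ 0) (hb : b ≠ 0) (ht : t ≠ 0)
    (h : (a = t) ↔ (b = t)) : a = b := by
  revert ha hb ht h
  cases a <;> cases b <;> cases t <;> decide

open Classical in
theorem STC_proof (hPAT : PAT) (hSZZ : SZZ) : STC := by
  intro E _ L hR m p hm hp
  have hom := hR.good.om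
  have hsm := hR.good.simple
  obtain ⟨T, hT, hle⟩ := r16_exists_star hom hsm hp.1.1
  obtain ⟨a, b, hab, hW⟩ := Set.ncard_eq_two.1 (hp.1.2 T hT hle)
  have ha : Wall L T a ∧ p a = 0 := by
    have h1 : a ∈ {e | Wall L T e ∧ p e = 0} := by rw [hW]; exact Or.inl rfl
    exact h1
  have hb : Wall L T b ∧ p b = 0 := by
    have h1 : b ∈ {e | Wall L T e ∧ p e = 0} := by rw [hW]; exact Or.inr rfl
    exact h1
  have ne0 : ∀ S, IsTope L S → ∀ g, S g ≠ 0 := fun S hS g => tope_supp hom hsm hS g
  have nneg : ∀ S, IsTope L S → ∀ g, -S g ≠ S g := fun S hS g => r16_sne (ne0 S hS g)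
  rcases hm with rfl | rfl
  · -- a double vertex
    have hz : ∀ g, p g = 0 → g = a ∨ g = b := by
      intro g hg
      have hsub : ({a, b} : Set E) ⊆ {x | p x = 0} := by
        rintro y (rfl | rfl)
        · exact ha.2
        · exact hb.2
      have heq : ({a, b} : Set E) = {x | p x = 0} := by
        refine Set.eq_of_subset_of_ncard_le hsub ?_ (Set.toFinite _)
        rw [hp.2, Set.ncard_pair hab]
      have h1 : g ∈ ({a, b} : Set E) := by
        rw [heq]
        exact hg
      exact h1
    let f : (E → SignType) → Bool × Bool := fun S => (decide (S a = T a), decide (S b = T b))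
    have hinj : Set.InjOn f {S | IsTope L S ∧ Le p S} := by
      rintro S ⟨hS, lS⟩ S' ⟨hS', lS'⟩ h
      have h1 := (Prod.mk.inj h).1
      have h2 := (Prod.mk.inj h).2
      rw [decide_eq_decide] at h1 h2
      refine r16_star_ext lS lS' fun g hg => ?_
      rcases hz g hg with rfl | rfl
      · exact STC_third (ne0 S hS _) (ne0 S' hS' _) (ne0 T hT _) h1
      · exact STC_third (ne0 S hS _) (ne0 S' hS' _) (ne0 T hT _) h2
    have himg : f '' {S | IsTope L S ∧ Le p S} = ↑(Finset.univ : Finset (Bool × Bool)) := by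
      ext ⟨x, y⟩
      simp only [Finset.coe_univ, Set.mem_univ, iff_true]
      have l1 : Le p (fl T a) := r16_le_fl hle ha.2
      have w1 : Wall L (fl T a) b := (hSZZ E L hR.good hR.cl p hp.1).2 hp.2 _ ha.1 l1 b hb.2
      rcases x with _ | _ <;> rcases y with _ | _
      · refine ⟨fl (fl T a) b, ⟨w1, r16_le_fl l1 hb.2⟩, ?_⟩
        show (_, _) = _
        rw [fl_ne _ hab, fl_same, fl_same, fl_ne _ hab.symm]
        simp [nneg T hT a, nneg T hT b]
      · refine ⟨fl T a, ⟨ha.1, l1⟩, ?_⟩
        show (_, _) = _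
        rw [fl_same, fl_ne _ hab.symm]
        simp [nneg T hT a]
      · refine ⟨fl T b, ⟨hb.1, r16_le_fl hle hb.2⟩, ?_⟩
        show (_, _) = _
        rw [fl_same, fl_ne _ hab]
        simp [nneg T hT b]
      · refine ⟨T, ⟨hT, hle⟩, ?_⟩
        show (_, _) = _
        simp
    rw [← Set.ncard_image_of_injOn hinj, himg, Set.ncard_coe_finset]
    rfl
  · -- a triple vertex
    have hsub : ({a, b} : Set E) ⊆ {x | p x = 0} := by
      rintro y (rfl | rfl)
      · exact ha.2
      · exact hb.2
    have h1 : ({x | p x = 0} \ ({a, b} : Set E)).ncard = 1 := by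
      rw [Set.ncard_sdiff hsub (Set.toFinite _), hp.2, Set.ncard_pair hab]
    obtain ⟨c, hc⟩ := Set.ncard_eq_one.1 h1
    have hc1 : c ∈ {x | p x = 0} \ ({a, b} : Set E) := by
      rw [hc]
      exact Set.mem_singleton c
    have hpc : p c = 0 := hc1.1
    have hca : c ≠ a := fun h => hc1.2 (Or.inl h)
    have hcb : c ≠ b := fun h => hc1.2 (Or.inr h)
    have hz : ∀ g, p g = 0 → g = a ∨ g = b ∨ g = c := by
      intro g hg
      by_cases h2 : g = a
      · exact Or.inl h2
      by_cases h3 : g = b
      · exact Or.inr (Or.inl h3)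
      right; right
      have h4 : g ∈ {x | p x = 0} \ ({a, b} : Set E) := by
        refine ⟨hg, ?_⟩
        rintro (h5 | h5)
        · exact h2 h5
        · exact h3 h5
      rw [hc] at h4
      exact h4
    obtain ⟨q1, q2, -⟩ := hPAT E L hR.good p hp.1 a b c hab hca hcb ha.2 hb.2 hpc hz T hT hle ha.1 hb.1
    obtain ⟨-, q3, -⟩ := hPAT E L hR.good p hp.1 b a c hab.symm hcb hca hb.2 ha.2 hpc
      (fun g hg => by rcases hz g hg with h | h | h <;> tauto) T hT hle hb.1 ha.1
    let f : (E → SignType) → Bool × Bool × Bool :=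
      fun S => (decide (S a = T a), decide (S b = T b), decide (S c = T c))
    have hinj : Set.InjOn f {S | IsTope L S ∧ Le p S} := by
      rintro S ⟨hS, lS⟩ S' ⟨hS', lS'⟩ h
      have h1 := (Prod.mk.inj h).1
      have h2 := (Prod.mk.inj (Prod.mk.inj h).2).1
      have h3 := (Prod.mk.inj (Prod.mk.inj h).2).2
      rw [decide_eq_decide] at h1 h2 h3
      refine r16_star_ext lS lS' fun g hg => ?_
      rcases hz g hg with rfl | rfl | rfl
      · exact STC_third (ne0 S hS _) (ne0 S' hS' _) (ne0 T hT _) h1
      · exact STC_third (ne0 S hS _) (ne0 S' hS' _) (ne0 T hT _) h2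
      · exact STC_third (ne0 S hS _) (ne0 S' hS' _) (ne0 T hT _) h3
    -- the two missing patterns
    have n1 : ∀ S, IsTope L S → Le p S → S a = T a → S b = T b → S c = T c := by
      intro S hS lS e1 e2
      by_contra e3
      apply q1
      have h2 : fl T c = S := by
        refine r16_star_ext (r16_le_fl hle hpc) lS fun g hg => ?_
        rcases hz g hg with rfl | rfl | rfl
        · rw [fl_ne _ hca.symm, e1]
        · rw [fl_ne _ hcb.symm, e2]
        · rw [fl_same]
          exact (sne (ne0 S hS _) (ne0 T hT _) e3).symm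
      show IsTope L (fl T c)
      rw [h2]
      exact hS
    have nopp : ∀ S, IsTope L S → IsTope L (cmp p fun g => -S g) := by
      intro S hS
      refine tope_of (hom.comp p hp.1.1 _ (hom.neg S hS.1)) fun g => ?_
      by_cases h2 : p g = 0
      · rw [cmp_pos h2]
        intro h3
        apply ne0 S hS g
        have h4 : -S g = 0 := h3
        simpa using h4
      · rw [cmp_neg h2]
        exact h2
    have n2 : ∀ S, IsTope L S → Le p S → S a ≠ T a → S b ≠ T b → S c ≠ T c := by
      intro S hS lS e1 e2 e3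
      have h2 := n1 (cmp p fun g => -S g) (nopp S hS) (le_cmp _ _) (by
        rw [cmp_pos ha.2]
        rw [sne (ne0 S hS _) (ne0 T hT _) e1, neg_neg]) (by
        rw [cmp_pos hb.2]
        rw [sne (ne0 S hS _) (ne0 T hT _) e2, neg_neg])
      rw [cmp_pos hpc, e3] at h2
      exact nneg T hT c h2
    have himg : f '' {S | IsTope L S ∧ Le p S} = ↑({(true, true, true), (false, true, true),
        (true, false, true), (false, true, false), (true, false, false),
        (false, false, false)} : Finset (Bool × Bool × Bool)) := by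
      apply Set.Subset.antisymm
      · rintro _ ⟨S, ⟨hS, lS⟩, rfl⟩
        by_cases e1 : S a = T a <;> by_cases e2 : S b = T b <;> by_cases e3 : S c = T c
        · simp [f, e1, e2, e3]
        · exact absurd (n1 S hS lS e1 e2) e3
        · simp [f, e1, e2, e3]
        · simp [f, e1, e2, e3]
        · simp [f, e1, e2, e3]
        · simp [f, e1, e2, e3]
        · exact absurd e3 (n2 S hS lS e1 e2)
        · simp [f, e1, e2, e3]
      · intro x hx
        have l1 : Le p (fl T a) := r16_le_fl hle ha.2
        have l2 : Le p (fl T b) := r16_le_fl hle hb.2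
        simp only [Finset.coe_insert, Finset.coe_singleton, Set.mem_insert_iff,
          Set.mem_singleton_iff] at hx
        rcases hx with rfl | rfl | rfl | rfl | rfl | rfl
        · exact ⟨T, ⟨hT, hle⟩, by simp [f]⟩
        · refine ⟨fl T a, ⟨ha.1, l1⟩, ?_⟩
          simp [f, fl_same, fl_ne _ hab.symm, fl_ne _ hca, nneg T hT a]
        · refine ⟨fl T b, ⟨hb.1, l2⟩, ?_⟩
          simp [f, fl_same, fl_ne _ hab, fl_ne _ hcb, nneg T hT b]
        · refine ⟨fl (fl T a) c, ⟨q2, r16_le_fl l1 hpc⟩, ?_⟩
          simp [f, fl_same, fl_ne _ hab.symm, fl_ne _ hca, fl_ne _ hca.symm, fl_ne _ hcb.symm,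
            nneg T hT a, nneg T hT c]
        · refine ⟨fl (fl T b) c, ⟨q3, r16_le_fl l2 hpc⟩, ?_⟩
          simp [f, fl_same, fl_ne _ hab, fl_ne _ hcb, fl_ne _ hca.symm, fl_ne _ hcb.symm,
            nneg T hT b, nneg T hT c]
        · refine ⟨cmp p fun g => -T g, ⟨nopp T hT, le_cmp _ _⟩, ?_⟩
          simp [f, cmp_pos ha.2, cmp_pos hb.2, cmp_pos hpc, nneg T hT a, nneg T hT b, nneg T hT c]
    rw [← Set.ncard_image_of_injOn hinj, himg, Set.ncard_coe_finset]
    rfl

end Pool.Agent.helper66.SL
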