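import Pool.Agent.helper66.SL.SpecB

/-!
# Row sl:UZC
-/

set_option autoImplicit false

namespace Pool.Agent.helper66.SL

open Pool.Agent.helper52.FC

theorem UZC_proof (hCLO : CLO) : UZC := by
  intro E _ L hG
  constructor
  · intro Z hZ T hT hle i j hij hi hj hZi hZj g
    have hsub : ({i, j} : Set E) ⊆ {e | Wall L T e ∧ Z e = 0} := by
      rintro e (rfl | rfl)
      · exact ⟨hi, hZi⟩
      · exact ⟨hj, hZj⟩
    have heq : ({i, j} : Set E) = {e | Wall L T e ∧ Z e = 0} := by
      refine Set.eq_of_subset_of_ncard_le hsub ?_ (Set.toFinite _)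
      rw [hZ.2 T hT hle, Set.ncard_pair hij]
    constructor
    · intro hg Y hY hYi hYj
      refine hCLO E L hG.om hG.simple Z hZ.1 T hT hle Y hY (fun e he hZe => ?_) g hg
      have h1 : e ∈ ({i, j} : Set E) := by
        rw [heq]
        exact ⟨he, hZe⟩
      rcases h1 with rfl | rfl
      · exact hYi
      · exact hYj
    · intro hg
      exact hg Z hZ.1 hZi hZj
  · intro X hX T hT hle i j k hij hik hjk hi hj hk hXi hXj hXk g
    have hsub : ({i, j, k} : Set E) ⊆ {e | Wall L T e ∧ X e = 0} := by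
      rintro e (rfl | rfl | rfl)
      · exact ⟨hi, hXi⟩
      · exact ⟨hj, hXj⟩
      · exact ⟨hk, hXk⟩
    have heq : ({i, j, k} : Set E) = {e | Wall L T e ∧ X e = 0} := by
      refine Set.eq_of_subset_of_ncard_le hsub ?_ (Set.toFinite _)
      rw [hX.2 T hT hle, Set.ncard_eq_three.mpr ⟨i, j, k, hij, hik, hjk, rfl⟩]
    constructor
    · intro hg Y hY hYi hYj hYk
      refine hCLO E L hG.om hG.simple X hX.1 T hT hle Y hY (fun e he hXe => ?_) g hg
      have h1 : e ∈ ({i, j, k} : Set E) := by
        rw [heq]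
        exact ⟨he, hXe⟩
      rcases h1 with rfl | rfl | rfl
      · exact hYi
      · exact hYj
      · exact hYk
    · intro hg
      exact hg X hX.1 hXi hXj hXk

end Pool.Agent.helper66.SL
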