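import Pool.Agent.helper66.SL.SpecB

/-!
# Row sl:ZO3
-/

set_option autoImplicit false

namespace Pool.Agent.helper66.SL

open Pool.Agent.helper52.FC

theorem ZO3_proof (hZO1 : ZO1) (hZO2 : ZO2) : ZO3 := by
  intro E _ L d v hs hL
  obtain ⟨h1, h2⟩ := hZO1 E L d v hs hL
  let φ : {T : E → SignType // IsTope L T} ≃ (Zon L v).extremePoints ℝ :=
    (Equiv.ofInjective _ h2).trans (Equiv.setCongr h1.symm)
  have hφ : ∀ T : {T : E → SignType // IsTope L T}, (φ T).1 = ∑ e, (T.1 e : ℝ) • v e :=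
    fun T => rfl
  refine ⟨⟨φ, ?_⟩⟩
  intro S T
  show (φ S ≠ φ T ∧ IsExposed ℝ (Zon L v) (segment ℝ (φ S).1 (φ T).1)) ↔ ∃ e, DiffAt e S.1 T.1
  rw [hφ, hφ]
  constructor
  · rintro ⟨h3, h4⟩
    have h5 : S ≠ T := fun h => h3 (by rw [h])
    exact (hZO2 E L d v hs hL S T h5).1 h4
  · intro h3
    have h5 : S ≠ T := by
      rintro rfl
      obtain ⟨e, he, -⟩ := h3
      exact he rfl
    exact ⟨fun h => h5 (φ.injective h), (hZO2 E L d v hs hL S T h5).2 h3⟩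

end Pool.Agent.helper66.SL
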